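import Pool.Agent.Work.MP_8d2cba_co_h18.All

/-!
# Orthomorphisms of finite groups with all nontrivial cycles of equal length

There is a number `n₀` such that every finite group of order `n ≥ n₀` which satisfies the
Hall-Paige condition has orthomorphisms of type `(1, k)` for all `k ≥ 3` dividing `n - 1`, in both
conventions for orthomorphisms.
-/

set_option autoImplicit false

universe u

namespace Pool.Agent.Results.MP_8d2cba_co.AllLargeGroups

/-- `φ` is an orthomorphism of `G` in the first convention: `φ` and `x ↦ x⁻¹ φ(x)` are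
bijections. -/
def LeftOrthomorphism {G : Type u} [Group G] (φ : G → G) : Prop :=
  Function.Bijective φ ∧ Function.Bijective (fun x => x⁻¹ * φ x)

/-- `φ` is an orthomorphism of `G` in the second convention: `φ` and `x ↦ φ(x) x⁻¹` are
bijections. -/
def RightOrthomorphism {G : Type u} [Group G] (φ : G → G) : Prop :=
  Function.Bijective φ ∧ Function.Bijective (fun x => φ x * x⁻¹)

/-- The Hall-Paige condition: the Sylow 2-subgroups are trivial or not cyclic. -/
def HallPaige (G : Type u) [Group G] : Prop :=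
  ∀ P : Sylow 2 G, Nat.card P = 1 ∨ ¬ IsCyclic P

/-- `φ` has type `(1, k)`: it fixes the identity, and every other element lies in a cycle of length
exactly `k`, that is, the `k`-th iterate of `φ` fixes it and no earlier one does. -/
def HasType {G : Type u} [Group G] (k : ℕ) (φ : G → G) : Prop :=
  φ 1 = 1 ∧ ∀ x, x ≠ 1 → φ^[k] x = x ∧ ∀ i, 0 < i → i < k → φ^[i] x ≠ x

theorem iterate_conj {A B : Type*} (e : A ≃ B) (f : A → A) (i : ℕ) (x : B) :
    (fun y => e (f (e.symm y)))^[i] x = e (f^[i] (e.symm x)) := by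
  induction i generalizing x with
  | zero => simp
  | succ i ih => simp only [Function.iterate_succ, Function.comp_apply, ih, Equiv.symm_apply_apply]

theorem exists_group (G : Type u) [Group G] (F : Type) (e : G ≃ F) :
    ∃ (_ : Group F), Nonempty (F ≃* G) :=
  ⟨e.symm.group, ⟨@MulEquiv.mk F G (e.symm.group).toMul _ e.symm
    fun x y => e.symm_apply_apply (e.symm x * e.symm y)⟩⟩

theorem exists_type (G : Type u) [Group G] [Finite G] :
    ∃ (F : Type) (_ : Group F) (_ : Fintype F), Nonempty (F ≃* G) := by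
  obtain ⟨I, h⟩ := exists_group G _ (Finite.equivFin G)
  exact ⟨_, I, inferInstance, h⟩

/-- There is `n₀` such that every finite group `G` of order `n ≥ n₀` satisfying the Hall-Paige
condition has, for all `k ≥ 3` with `k ∣ n - 1`, an orthomorphism of type `(1, k)`, in both
conventions. -/
theorem result : ∃ n₀ : ℕ, ∀ (G : Type u) [Group G] [Finite G], n₀ ≤ Nat.card G →
    HallPaige G → ∀ k : ℕ, 3 ≤ k → k ∣ Nat.card G - 1 →
      (∃ φ : G → G, LeftOrthomorphism φ ∧ HasType k φ) ∧
      (∃ φ : G → G, RightOrthomorphism φ ∧ HasType k φ) := by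
  obtain ⟨N, hN⟩ := Pool.OM.all
  refine ⟨N, fun G _ _ hG hHP k hk hdvd => ?_⟩
  -- transfer to a group in `Type`
  obtain ⟨F, _, _, ⟨E⟩⟩ := exists_type G
  have hcard : Fintype.card F = Nat.card G := by
    rw [← Nat.card_eq_fintype_card, Nat.card_congr E.toEquiv]
  have hsyl : ∀ P : Sylow 2 F, (P : Subgroup F) = ⊥ ∨
      ¬ IsCyclic (P : Subgroup F) := by
    intro P
    let Q : Sylow 2 G := P.comapOfInjective (ϕ := E.symm.toMonoidHom) E.symm.injective
      (by intro x _; exact ⟨E x, by simp⟩)
    have hQ : (Q : Subgroup G) = (P : Subgroup F).comap E.symm.toMonoidHom := rfl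
    have iso : (Q : Subgroup G) ≃* (P : Subgroup F) := by
      refine ⟨⟨fun x => ⟨E.symm x.1, x.2⟩, fun y => ⟨E y.1, ?_⟩, fun x => ?_, fun y => ?_⟩, ?_⟩
      · change E.symm (E y.1) ∈ (P : Subgroup F)
        simp
      · simp
      · simp
      · intro x y
        exact Subtype.ext (map_mul E.symm x.1 y.1)
    rcases hHP Q with h | h
    · left
      rw [Subgroup.eq_bot_iff_card, ← Nat.card_congr iso.toEquiv]
      exact h
    · right
      intro hc
      exact h (isCyclic_of_surjective iso.symm.toMonoidHom iso.symm.surjective)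
  obtain ⟨θ, h1, h2, h3⟩ := hN F (by rw [hcard]; exact hG) hsyl k hk
    (by rw [hcard]; exact hdvd)
  have hk0 : 0 < k := by omega
  -- the map on `G`
  have key : ∃ φ : G → G, LeftOrthomorphism φ ∧ HasType k φ := by
    refine ⟨fun x => E (θ (E.symm x)), ⟨?_, ?_⟩, ?_, ?_⟩
    · exact E.bijective.comp (θ.bijective.comp E.symm.bijective)
    · have : (fun x => x⁻¹ * E (θ (E.symm x))) = E ∘ (fun x => x⁻¹ * θ x) ∘ E.symm := by
        funext x
        simp
      rw [this]
      exact E.bijective.comp (h1.comp E.symm.bijective)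
    · change E (θ (E.symm 1)) = 1
      rw [map_one, h2, map_one]
    · intro x hx
      have hx' : E.symm x ≠ 1 := by simpa using hx
      have hp := h3 _ hx'
      have hit : ∀ i, (fun y => E (θ (E.symm y)))^[i] x = E (θ^[i] (E.symm x)) :=
        fun i => iterate_conj E.toEquiv θ i x
      refine ⟨?_, fun i hi hik h => ?_⟩
      · rw [hit, ← hp]
        have := Function.iterate_minimalPeriod (f := θ) (x := E.symm x)
        rw [this]; simp
      · rw [hit] at h
        have h' : θ^[i] (E.symm x) = E.symm x := by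
          apply E.injective
          rw [h]; simp
        have hle := Function.IsPeriodicPt.minimalPeriod_le (f := θ) hi h'
        rw [hp] at hle
        omega
  refine ⟨key, ?_⟩
  obtain ⟨φ, ⟨p1, p2⟩, p3, p4⟩ := key
  have hinv : Function.Bijective (fun x : G => x⁻¹) := (Equiv.inv G).bijective
  refine ⟨fun x => (φ x⁻¹)⁻¹, ⟨?_, ?_⟩, ?_, ?_⟩
  · exact hinv.comp (p1.comp hinv)
  · have : (fun x : G => (φ x⁻¹)⁻¹ * x⁻¹) = (fun x => x⁻¹) ∘ (fun x => x⁻¹ * φ x) ∘ (fun x => x⁻¹) := by
      funext x
      simp
    rw [this]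
    exact hinv.comp (p2.comp hinv)
  · simp [p3]
  · intro x hx
    have hit : ∀ i, (fun y => (φ y⁻¹)⁻¹)^[i] x = (φ^[i] x⁻¹)⁻¹ := by
      intro i
      have := iterate_conj (Equiv.inv G) φ i x
      simpa using this
    obtain ⟨q1, q2⟩ := p4 x⁻¹ (by simpa using hx)
    refine ⟨by rw [hit, q1]; simp, fun i hi hik h => q2 i hi hik ?_⟩
    rw [hit] at h
    exact inv_eq_iff_eq_inv.1 h

end Pool.Agent.Results.MP_8d2cba_co.AllLargeGroups
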